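import Pool.Agent.Y130.MT.Final
import Pool.Agent.Y130.AST.Ast

/-!
# The algebraic Sato-Tate conjecture for abelian varieties with isolated Frobenius eigenvalues

Let `A` be an abelian variety over a number field `F`, `W = H_1(A, ℚ)`, and let `V` be the rational
Tate module of `A` for a prime `ℓ`, with coefficients extended to an algebraic closure `K` of `ℚ_ℓ`,
with the action `ρ` of the absolute Galois group `Γ` of `F` and the cyclotomic character `χ`.  As in
the theorem for the Mumford-Tate conjecture, `V` is (over a finite extension of `F`) a direct summand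
of a sum of copies of a representation `T`, the sum of strongly irreducible representations `U c` which
are at most lines or contain isolated eigenvectors of Frobenius elements (and have independent
determinants if they are not self-dual).

For a finite extension of `F` with the Galois group `Γ' ≤ Γ` the Zariski closure `G` of `ρ(Γ')` is
reductive (Faltings) and contains the homotheties (Bogomolov), so that `G` and the group `G₁` of the
problem are determined by the Tate tensors OVER THIS FIELD: the multilinear forms in `2 m` variables on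
which `Γ'` acts through `χ ^ m` (no passage to a smaller subgroup is allowed).

By the theorem of Deligne the Hodge tensors of `A` (rational multilinear forms on `W`) are absolute
Hodge cycles, so that `Γ` acts on them: for `g` in `Γ` and a Hodge tensor `ψ` with the extension `φ` to
`V` there is a rational tensor `act m g ψ`, independent of `ℓ`, the extension of which is the transform
of `φ` under `ρ g`.  This is the hypothesis `hact`.

THEOREM.  For all finite extensions of `F` the space of the Tate tensors over this extension is spanned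
over `K` by the Hodge tensors which are fixed by `Γ'`: a space of rational tensors which does not
depend on `ℓ`.  These rational tensors are rational combinations of products of Hodge classes of degree
two.  So, if the hypotheses on the Frobenius eigenvalues are satisfied at all `ℓ`, the group over `ℚ`
which fixes these tensors is the group `AST` of the conjecture (and its identity component is the
Lefschetz group).
-/

namespace Pool.Agent.Results.MP_7a3e68_ag.IsolatedFrobenius

open Module Pool.Agent.Y130 Pool.Agent.Y130.MT Pool.Agent.H204R3.GP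

/-- The action through `χ ^ m`. -/
noncomputable def powRep {K Γ : Type} [Field K] [Group Γ] (χ : Γ →* K) (m : ℕ) :
    Representation K Γ K where
  toFun g := (χ g ^ m) • LinearMap.id
  map_one' := by
    rw [map_one, one_pow, one_smul]
    rfl
  map_mul' g h := by
    rw [map_mul, mul_pow, mul_smul]
    apply LinearMap.ext
    intro x
    change χ g ^ m • χ h ^ m • x = χ g ^ m • χ h ^ m • x
    rfl

/-- The algebraic Sato-Tate conjecture for abelian varieties with isolated Frobenius eigenvalues: the
Tate tensors over each finite extension of the ground field are spanned by the Hodge tensors fixed by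
the Galois group, which do not depend on the prime. -/
theorem result {K : Type} [Field K] [CharZero K] [IsAlgClosed K]
    -- the complex torus `A(ℂ)` with a polarization
    {W A : Type} [AddCommGroup W] [Module ℚ W] [AddCommGroup A] [Module ℂ A] (per : W →+ A)
    (ω₀ : W →ₗ[ℚ] W →ₗ[ℚ] ℚ) (hω₀ : IsHodgeBilinear per ω₀)
    -- the Tate module and the comparison
    {V : Type} [AddCommGroup V] [Module K V] [FiniteDimensional K V] (comp : W →+ V)
    (hcomp : Submodule.span K (Set.range comp) = ⊤)
    {Γ : Type} [Group Γ] (ρ : Representation K Γ V) (χ : Γ →* K)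
    (ω : V →ₗ[K] V →ₗ[K] K) (hnondeg : ∀ u, (∀ v, ω u v = 0) → u = 0)
    (hω : ∀ s u v, ω (ρ s u) (ρ s v) = χ s * ω u v)
    (hωω : ∀ x y, ω (comp x) (comp y) = ((ω₀ x y : ℚ) : K))
    (hF : FaltingsEnd per comp ρ)
    -- the action of the Galois group on the Hodge tensors (Deligne)
    (act : ∀ m, Γ → MultilinearMap ℚ (fun _ : Fin m × Fin 2 => W) ℚ →
      MultilinearMap ℚ (fun _ : Fin m × Fin 2 => W) ℚ)
    (hact : ∀ m g ψ, IsHodgeTensor per ψ → ∀ φ : MultilinearMap K (fun _ : Fin m × Fin 2 => V) K,
      Compares comp φ ψ → ∀ v : Fin m × Fin 2 → W,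
        φ (fun l => ρ g (comp (v l))) = χ g ^ m * ((act m g ψ v : ℚ) : K))
    -- the strongly irreducible constituents, over the extension with the Galois group `Γ₁`
    (Γ₁ : Subgroup Γ) (hΓ₁ : Γ₁.FiniteIndex)
    {T : Type} [AddCommGroup T] [Module K T] [FiniteDimensional K T] (τ : Representation K Γ₁ T)
    (hT : SummandOfCopies τ (ρ.comp Γ₁.subtype)) (B : T →ₗ[K] T →ₗ[K] K) {C : Type} [Finite C]
    (U : C → Submodule K T) (star : C → C) (Δ : Subgroup Γ₁)
    (H : Γ₁ → Subgroup Kˣ) (hH : ∀ F, ∃ u ∈ H F, (u : K) = χ F)
    (hU : IsolatedBlocks τ (χ.comp Γ₁.subtype) B U star Δ H)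
    -- the Galois group of a finite extension
    (Γ' : Subgroup Γ) (hΓ' : Γ'.FiniteIndex) (m : ℕ)
    (φ : MultilinearMap K (fun _ : Fin m × Fin 2 => V) K) :
    (∀ g ∈ Γ', ∀ v : Fin m × Fin 2 → V, φ (fun l => ρ g (v l)) = χ g ^ m * φ v) ↔
      φ ∈ Submodule.span K {φ' : MultilinearMap K (fun _ : Fin m × Fin 2 => V) K |
        ∃ ψ : MultilinearMap ℚ (fun _ : Fin m × Fin 2 => W) ℚ, IsHodgeTensor per ψ ∧
          ψ ∈ Submodule.span ℚ {ψ' | IsProductOfHodgeBilinear per ψ'} ∧
          (∀ g ∈ Γ', act m g ψ = ψ) ∧ Compares comp φ' ψ} := by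
  refine Pool.Agent.Y130.AST.main per comp hcomp ρ χ ?_ act hact Γ' hΓ' m φ
  -- Faltings for the extension
  have hF' : FaltingsEnd per comp (ρ.comp Γ₁.subtype) := by
    rintro P ⟨Δ', hΔ', hP⟩
    refine hF P ⟨Δ'.map Γ₁.subtype, ?_, ?_⟩
    · have := hΓ₁
      have := hΔ'
      exact ⟨by
        rw [Subgroup.index_map_subtype]
        exact mul_ne_zero Subgroup.FiniteIndex.index_ne_zero Subgroup.FiniteIndex.index_ne_zero⟩
    · rintro _ ⟨s, hs, rfl⟩ v
      exact hP s hs v
  have hMT : MumfordTateStrong per comp (ρ.comp Γ₁.subtype) (χ.comp Γ₁.subtype) := by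
    refine mumfordTate_of per comp (ρ.comp Γ₁.subtype) (χ.comp Γ₁.subtype) ω hnondeg
      (fun s u v => hω s u v) ω₀ hω₀ hωω hF' fun m φ hφ => ?_
    have hE : ContainsEigenvalues H (χ.comp Γ₁.subtype) (powRep (χ.comp Γ₁.subtype) m) := by
      intro F
      refine ⟨hH F, fun β hβ => ?_⟩
      obtain ⟨u, hu, hu'⟩ := hH F
      obtain ⟨x, hx, hx'⟩ := hβ
      refine ⟨u ^ m, Subgroup.pow_mem _ hu m, ?_⟩
      have h1 : χ F ^ m * x = β * x := hx'
      rw [Units.val_pow_eq_pow_val, hu']
      exact mul_right_cancel₀ hx h1
    obtain ⟨Δ', hΔ', hφ'⟩ := hφ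
    have h1 := forms_V (S := Fin m × Fin 2) hT hU hE (φ := φ) ⟨Δ', hΔ', fun s hs v => by
      rw [hφ' s hs]
      rfl⟩
    refine Submodule.span_le.2 ?_ h1
    rintro _ ⟨m', e, β, w, hβ, -, rfl⟩
    have hm : m' = m := by
      have h4 := Fintype.card_congr e
      rw [Fintype.card_prod, Fintype.card_prod, Fintype.card_fin, Fintype.card_fin,
        Fintype.card_fin] at h4
      omega
    subst hm
    have h2 : (prodForm e β).smulRight w = w • mmG e β := by
      ext v
      change prodForm e β v * w = w * mmG e β v
      rw [prodForm_apply, mmG_apply, mul_comm]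
    rw [SetLike.mem_coe, h2]
    exact Submodule.smul_mem _ _ (Submodule.subset_span ⟨e, β, hβ, rfl⟩)
  -- back to the ground field
  rintro m φ ⟨Δ', hΔ', h⟩
  refine hMT m φ ⟨Δ'.subgroupOf Γ₁, ?_, fun s hs v => h s hs v⟩
  have := hΔ'
  exact inferInstance

end Pool.Agent.Results.MP_7a3e68_ag.IsolatedFrobenius
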