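import Mathlib
import Pool.Agent.Y91.L.Ast

/-!
# The algebraic Sato-Tate conjecture for abelian varieties with non-coprime signatures

Let `A` be an abelian variety over a number field `F`, `K` a finite extension of `F`, `H = H_1(A, ℚ)`
with the period map `per : H → T` to the tangent space, and `V_ℓ = ℚ_ℓ ⊗ H` the rational Tate
modules, with the representation `ρ` of the absolute Galois group `Γ` of `K` and the cyclotomic
character `χ`. The Zariski closure `G` of the image of `Γ` is reductive (Faltings) and contains the
homotheties (Bogomolov), so `G` and its intersection `G_1` with the symplectic group are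
determined by the Tate tensors over `K`: the multilinear forms in `2 n` variables on `V_ℓ` on which
`Γ` acts through `χ ^ n` (`IsRationalTate`; no passage to a subgroup of finite index is allowed).

By the theorem of Deligne the Hodge tensors of `A` (rational multilinear forms on `H`) are absolute
Hodge cycles, so that `Γ` acts on them: for `g` in `Γ` and a Hodge tensor `f` there is a rational tensor
`A n g f`, independent of `ℓ`, whose extension to `V_ℓ` is the transform of the extension of `f` under
`ρ g`. This is the hypothesis `hA` (the action does not depend on `ℓ`).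

Suppose that the simple abelian subvarieties `U` of `A` over `ℂ` have the types of `GoodType`: `U` has
complex multiplication, or its dimension is one or a prime number, or `U` has a totally real maximal
subfield of endomorphisms with relative dimension odd or two, or a maximal subfield, CM or totally
real, with coprime multiplicities `(p, q)` on the tangent space at some place, or with
multiplicities `p ≠ q` at some place, not two neighbouring binomial coefficients, such that
`p + q` does not divide `gcd(p, q) gcd(p', q')` for all indefinite `(p', q')`, or `p = q` is odd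
everywhere (centre a CM field), or the endomorphism algebra is a CM field and `p = q = 2`
everywhere. Suppose that the `U` are not related by twists (`IsSeparated`).

**Theorem.** For every `ℓ` the space of the Tate tensors over `K` on `V_ℓ` is spanned over `ℚ_ℓ` by the
Hodge tensors that are fixed by the Galois group, a space of rational tensors which does not
depend on `ℓ`. So the subgroup `AST_K(A)` over `ℚ` of the symplectic group which fixes these tensors
gives the group `G_1` for all `ℓ`: the algebraic Sato-Tate conjecture for `A` and `K`.
-/

namespace Pool.Agent.Results.MP_7a3e68_ag.NonCoprimeSignatures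

open Pool.Agent.Y90.St Pool.Agent.Y224.TS.St Pool.Agent.Y91.L TensorProduct

/-- **The algebraic Sato-Tate conjecture** for an abelian variety over a number field `K`, given by
the period map `per : H → T` and a polarization `E`, the simple abelian subvarieties of which (over
`ℂ`) have one of the types of `GoodType` and are not related by twists. For each prime `ℓ` let `ρ`
be the representation of the Galois group `Γ` of `K` on the Tate module `ℚ_ℓ ⊗ H`, with the known
properties (`IsTateModule`; `χ` is the cyclotomic character, `ℂ` is identified with an algebraic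
closure of `ℚ_ℓ`), compatible with the action `A` of `Γ` on the Hodge tensors, which does not
depend on `ℓ` (Deligne). Then the Tate tensors over `K` are the `ℚ_ℓ`-linear combinations of the
extensions of the Hodge tensors which are fixed by `Γ`. -/
theorem result {H T : Type} [AddCommGroup H] [Module ℚ H] [AddCommGroup T] [Module ℂ T]
    (per : H →+ T) (hX : IsAV per) (hs : GoodType per) (ht : Pool.Agent.Y4.Q.IsSeparated per)
    (E : H → H → ℚ) (hE : IsPolarization per E) {Γ : Type} [Group Γ]
    -- the action of the Galois group on the Hodge tensors
    (A : ∀ n, Γ → MultilinearMap ℚ (fun _ : Fin (2 * n) => H) ℚ →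
      MultilinearMap ℚ (fun _ : Fin (2 * n) => H) ℚ)
    (ℓ : ℕ) [Fact ℓ.Prime] [Algebra ℚ_[ℓ] ℂ] [Algebra.IsAlgebraic ℚ_[ℓ] ℂ]
    (ρ : Representation ℚ_[ℓ] Γ (ℚ_[ℓ] ⊗[ℚ] H)) (χ : Γ →* ℚ_[ℓ])
    (hρ : IsTateModule per E ρ χ)
    -- the theorem of Deligne
    (hA : ∀ n g f, Pool.Agent.H204R3.CM.HodgeMul per f → ∀ φ φ', Extends ℚ_[ℓ] f φ →
      Extends ℚ_[ℓ] (A n g f) φ' →
        ∀ v : Fin (2 * n) → ℚ_[ℓ] ⊗[ℚ] H, φ (fun k => ρ g (v k)) = χ g ^ n * φ' v)
    (n : ℕ) (φ : MultilinearMap ℚ_[ℓ] (fun _ : Fin (2 * n) => ℚ_[ℓ] ⊗[ℚ] H) ℚ_[ℓ]) :
    IsRationalTate ρ χ n φ ↔ φ ∈ Submodule.span ℚ_[ℓ]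
      {ψ | ∃ f : MultilinearMap ℚ (fun _ : Fin (2 * n) => H) ℚ,
        Pool.Agent.H204R3.CM.HodgeMul per f ∧ (∀ g, A n g f = f) ∧ Extends ℚ_[ℓ] f ψ} :=
  rational_tate_span hX hs ht hE hρ A hA n φ

end Pool.Agent.Results.MP_7a3e68_ag.NonCoprimeSignatures
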